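import Mathlib

/-!
# A counterexample of every order `n ≥ 11` to the AutoGraphiX bound `R + α ≤ n - 1 + √(n - 1)`

`R` is the Randić index, `α` the independence number. The graph is the complete bipartite graph with parts of
sizes `2` and `n - 2`: there `R = √(2 (n - 2))` and `α = n - 2`.
-/

set_option autoImplicit false

namespace Pool.Agent.Results.MP_e31007_co.CompleteBipartite

/-- The weight `1 / √(d_u d_v)` of an edge `uv`. -/
noncomputable def weight {V : Type} [Fintype V] (G : SimpleGraph V) [DecidableRel G.Adj] : Sym2 V → ℝ :=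
  Sym2.lift ⟨fun u v => 1 / Real.sqrt ((G.degree u : ℝ) * (G.degree v : ℝ)), fun u v => by
    simp only [mul_comm]⟩

/-- The Randić index of a finite graph: the sum of `1 / √(d_u d_v)` over all edges `uv`. -/
noncomputable def randic {V : Type} [Fintype V] [DecidableEq V] (G : SimpleGraph V) [DecidableRel G.Adj] : ℝ :=
  ∑ e ∈ G.edgeFinset, weight G e

/-- The complete bipartite graph on `Fin n` with the parts `{0, 1}` and `{2, ..., n - 1}`. -/
def K (n : ℕ) : SimpleGraph (Fin n) where
  Adj u v := (u.val < 2 ∧ 2 ≤ v.val) ∨ (v.val < 2 ∧ 2 ≤ u.val)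
  symm := ⟨fun u v h => h.symm⟩
  loopless := ⟨fun u h => by omega⟩

instance (n : ℕ) : DecidableRel (K n).Adj := fun u v => by unfold K; infer_instance

lemma adj_iff {n : ℕ} (u v : Fin n) : (K n).Adj u v ↔ (u.val < 2 ∧ 2 ≤ v.val) ∨ (v.val < 2 ∧ 2 ≤ u.val) := Iff.rfl

lemma card_low (n : ℕ) (hn : 2 ≤ n) : (Finset.univ.filter (fun v : Fin n => v.val < 2)).card = 2 := by
  have h := Fin.card_filter_val_lt (n := n) (m := 2)
  simpa [hn] using h

lemma card_high (n : ℕ) (hn : 2 ≤ n) : (Finset.univ.filter (fun v : Fin n => 2 ≤ v.val)).card = n - 2 := by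
  have h1 := Finset.card_filter_add_card_filter_not (s := (Finset.univ : Finset (Fin n))) (fun v => v.val < 2)
  rw [card_low n hn] at h1
  simp only [not_lt, Finset.card_univ, Fintype.card_fin] at h1
  omega

lemma degree_low (n : ℕ) (hn : 2 ≤ n) (u : Fin n) (hu : u.val < 2) : (K n).degree u = n - 2 := by
  rw [← card_high n hn, ← SimpleGraph.card_neighborFinset_eq_degree]
  congr 1
  ext v
  rw [SimpleGraph.mem_neighborFinset, adj_iff, Finset.mem_filter]
  simp only [Finset.mem_univ, true_and]
  omega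

lemma degree_high (n : ℕ) (hn : 2 ≤ n) (u : Fin n) (hu : 2 ≤ u.val) : (K n).degree u = 2 := by
  rw [← card_low n hn, ← SimpleGraph.card_neighborFinset_eq_degree]
  congr 1
  ext v
  rw [SimpleGraph.mem_neighborFinset, adj_iff, Finset.mem_filter]
  simp only [Finset.mem_univ, true_and]
  omega

lemma card_edges (n : ℕ) (hn : 2 ≤ n) : (K n).edgeFinset.card = 2 * (n - 2) := by
  have h := (K n).sum_degrees_eq_twice_card_edges
  have h2 : ∑ v, (K n).degree v = 2 * (n - 2) + (n - 2) * 2 := by
    rw [← Finset.sum_filter_add_sum_filter_not Finset.univ (fun v : Fin n => v.val < 2)]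
    congr 1
    · rw [Finset.sum_congr rfl (fun v hv => degree_low n hn v (Finset.mem_filter.1 hv).2), Finset.sum_const,
        card_low n hn, smul_eq_mul]
    · rw [Finset.sum_congr rfl (fun v hv => degree_high n hn v (not_lt.1 (Finset.mem_filter.1 hv).2)),
        Finset.sum_const, smul_eq_mul]
      congr 1
      rw [← card_high n hn]
      congr 1
      ext v
      simp only [Finset.mem_filter, Finset.mem_univ, true_and]
      omega
  omega

lemma randic_eq (n : ℕ) (hn : 3 ≤ n) : randic (K n) = Real.sqrt (2 * ((n : ℝ) - 2)) := by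
  have hc : ((n - 2 : ℕ) : ℝ) = (n : ℝ) - 2 := by rw [Nat.cast_sub (by omega)]; norm_num
  have hpos : (0 : ℝ) < 2 * ((n : ℝ) - 2) := by
    have : (3 : ℝ) ≤ n := by exact_mod_cast hn
    linarith
  have key : ∀ e ∈ (K n).edgeFinset, weight (K n) e = 1 / Real.sqrt (2 * ((n : ℝ) - 2)) := by
    intro e he
    induction e using Sym2.ind with
    | _ u v =>
      rw [SimpleGraph.mem_edgeFinset, SimpleGraph.mem_edgeSet, adj_iff] at he
      unfold weight
      rw [Sym2.lift_mk]
      rcases he with ⟨h1, h2⟩ | ⟨h1, h2⟩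
      · simp only [degree_low n (by omega) u h1, degree_high n (by omega) v h2]
        rw [hc, mul_comm]; norm_num
      · simp only [degree_low n (by omega) v h1, degree_high n (by omega) u h2]
        rw [hc]; norm_num
  unfold randic
  rw [Finset.sum_congr rfl key, Finset.sum_const, card_edges n (by omega), nsmul_eq_mul]
  push_cast
  rw [hc, mul_one_div]
  exact Real.div_sqrt

lemma connected (n : ℕ) (hn : 3 ≤ n) : (K n).Connected := by
  have h0 : 0 < n := by omega
  rw [SimpleGraph.connected_iff]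
  refine ⟨?_, ⟨⟨0, h0⟩⟩⟩
  have hhigh : ∀ v : Fin n, 2 ≤ v.val → (K n).Reachable v ⟨0, h0⟩ := by
    intro v hv
    apply SimpleGraph.Adj.reachable
    rw [adj_iff]
    right
    exact ⟨by simp, hv⟩
  have hlow : ∀ v : Fin n, v.val < 2 → (K n).Reachable v ⟨0, h0⟩ := by
    intro v hv
    have h1 : (K n).Reachable v ⟨2, by omega⟩ := by
      apply SimpleGraph.Adj.reachable
      rw [adj_iff]
      left
      exact ⟨hv, by simp⟩
    exact h1.trans (hhigh _ (by simp))
  have hall : ∀ v : Fin n, (K n).Reachable v ⟨0, h0⟩ := by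
    intro v
    rcases lt_or_ge v.val 2 with h | h
    · exact hlow v h
    · exact hhigh v h
  intro u v
  exact (hall u).trans (hall v).symm

lemma indep (n : ℕ) (hn : 3 ≤ n) : n - 2 ≤ (K n).indepNum := by
  rw [← card_high n (by omega)]
  apply SimpleGraph.IsIndepSet.card_le_indepNum
  intro u hu v hv _ hadj
  simp only [Finset.coe_filter, Finset.mem_univ, true_and, Set.mem_ofPred_eq] at hu hv
  rw [adj_iff] at hadj
  omega

/-- For every `n ≥ 11` there is a connected graph on `n` vertices for which the sum of the Randić index and the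
independence number is larger than `n - 1 + √(n - 1)`. -/
theorem result : ∀ n : ℕ, 11 ≤ n → ∃ (G : SimpleGraph (Fin n)) (_ : DecidableRel G.Adj), G.Connected ∧
    (n : ℝ) - 1 + Real.sqrt ((n : ℝ) - 1) < randic G + (G.indepNum : ℝ) := by
  intro n hn
  refine ⟨K n, inferInstance, connected n (by omega), ?_⟩
  have h1 : ((n - 2 : ℕ) : ℝ) ≤ ((K n).indepNum : ℝ) := by exact_mod_cast indep n (by omega)
  have hc : ((n - 2 : ℕ) : ℝ) = (n : ℝ) - 2 := by rw [Nat.cast_sub (by omega)]; norm_num
  rw [hc] at h1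
  rw [randic_eq n (by omega)]
  have hn' : (11 : ℝ) ≤ n := by exact_mod_cast hn
  have h2 : 1 + Real.sqrt ((n : ℝ) - 1) < Real.sqrt (2 * ((n : ℝ) - 2)) := by
    apply Real.lt_sqrt_of_sq_lt
    have h3 : Real.sqrt ((n : ℝ) - 1) ^ 2 = (n : ℝ) - 1 := Real.sq_sqrt (by linarith)
    have h4 : Real.sqrt ((n : ℝ) - 1) < ((n : ℝ) - 4) / 2 := by
      rw [Real.sqrt_lt' (by linarith)]
      nlinarith
    nlinarith
  linarith

end Pool.Agent.Results.MP_e31007_co.CompleteBipartite
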